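import Mathlib
import Pool.Agent.W109.LT.Poly

/-!
# The least prime `p(m, c)` in the progression `c mod m`: the bound `λ m log m` with `λ → ∞`

For almost all moduli `m` and for most residues `c` of any family of nearly minimal additive energy
(for instance the values of a polynomial), the number of primes `p ≡ c (mod m)` up to `λ m log m` is
`(1 ± ε) λ m / φ(m)`; in particular the least prime is at most `λ m log m`.
-/

set_option autoImplicit false

namespace Pool.Agent.Results.MP_5b0a7e_nt.ThinResiduesLambda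

open Finset Polynomial

/-- `π(y; m, c)`: the number of primes `p ≤ y` with `p ≡ c (mod m)` -/
noncomputable def primesAP (y : ℝ) (m c : ℕ) : ℕ :=
  ((Icc 1 ⌊y⌋₊).filter (fun p : ℕ => p.Prime ∧ p ≡ c [MOD m])).card

/-- the modulus `m` is as expected: some prime `p ≡ c (mod m)` is at most `lam m log m`, and the
number of these primes is `lam m / φ(m)` up to a relative error `ε` -/
def AsExpected (ε lam : ℝ) (m c : ℕ) : Prop :=
  (∃ p : ℕ, p.Prime ∧ p ≡ c [MOD m] ∧ (p : ℝ) ≤ lam * m * Real.log m) ∧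
    |(primesAP (lam * m * Real.log m) m c : ℝ) - lam * m / Nat.totient m| ≤
      ε * (lam * m / Nat.totient m)

open Classical in
/-- the number of moduli `M < m ≤ 2 M` coprime to `c` which are not as expected -/
noncomputable def exceptions (ε lam : ℝ) (M c : ℕ) : ℕ :=
  ((Ioc M (2 * M)).filter (fun m : ℕ => m.Coprime c ∧ ¬ AsExpected ε lam m c)).card

/-- `c` is typical: for every `1 ≤ lam ≤ (log M) ^ κ` there are at most
`C M (1 / lam + 1 / (log M) ^ δ)` exceptional moduli `M < m ≤ 2 M` -/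
def Typical (ε C δ : ℝ) (κ M c : ℕ) : Prop := ∀ lam : ℝ, 1 ≤ lam → lam ≤ Real.log M ^ κ →
  (exceptions ε lam M c : ℝ) ≤ C * M * (1 / lam + 1 / Real.log M ^ δ)

/-- The additive energy of order `h` of the family `s 1, ..., s x`: the number of solutions of
`s (v 1) + ... + s (v h) = s (w 1) + ... + s (w h)` with all `v i`, `w i` in `{1, ..., x}`. -/
def energy (h x : ℕ) (s : ℕ → ℕ) : ℕ :=
  (((Fintype.piFinset fun _ : Fin h => Icc 1 x) ×ˢ (Fintype.piFinset fun _ : Fin h => Icc 1 x)).filter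
    (fun q => ∑ i, s (q.1 i) = ∑ i, s (q.2 i))).card

lemma energy_eq : energy = Pool.Agent.H560R3.GB.energy := rfl

lemma typ_conv (ε C δ : ℝ) (κ M c : ℕ) (hε : ε < 1) (hM : 1 ≤ M)
    (h : Pool.Agent.W109.LT.Typical ε C δ κ M c) : Typical ε C δ κ M c := by
  classical
  intro lam h1 h2
  refine le_trans ?_ (h lam h1 h2)
  unfold exceptions
  have hsub : (Ioc M (2 * M)).filter (fun m : ℕ => m.Coprime c ∧ ¬ AsExpected ε lam m c) ⊆
      (Ioc M (2 * M)).filter (fun m : ℕ => m.Coprime c ∧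
        ¬ |(Pool.Agent.W109.LT.primesAP (lam * m * Real.log m) m c : ℝ) - lam * m / Nat.totient m| ≤
          ε * (lam * m / Nat.totient m)) := by
    intro m hm
    rw [mem_filter] at hm ⊢
    refine ⟨hm.1, hm.2.1, fun h3 => hm.2.2 ?_⟩
    have h3' : |(primesAP (lam * m * Real.log m) m c : ℝ) - lam * m / Nat.totient m| ≤
      ε * (lam * m / Nat.totient m) := h3
    refine ⟨?_, h3'⟩
    have hm1 := mem_Ioc.1 hm.1
    have hmp : (0 : ℝ) < m := by exact_mod_cast (by omega : 0 < m)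
    have htp : (0 : ℝ) < Nat.totient m := by exact_mod_cast Nat.totient_pos.2 (by omega)
    have hu : 0 < lam * m / Nat.totient m := by positivity
    have h4 := (abs_le.1 h3').1
    have h5 : (0 : ℝ) < primesAP (lam * m * Real.log m) m c := by nlinarith
    have h6 : 0 < primesAP (lam * m * Real.log m) m c := by exact_mod_cast h5
    unfold primesAP at h6
    obtain ⟨p, hp⟩ := card_pos.1 h6
    rw [mem_filter, mem_Icc] at hp
    refine ⟨p, hp.2.1, hp.2.2, ?_⟩
    have hy : 0 ≤ lam * m * Real.log m := by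
      have : 0 ≤ Real.log m := Real.log_natCast_nonneg m
      positivity
    exact (Nat.le_floor_iff hy).1 hp.1.2
  exact_mod_cast card_le_card hsub

open Classical in
/-- **Primes in progressions up to `λ m log m` for almost all moduli.** For `0 < ε ≤ 9/10` there are
`C, δ > 0`, depending only on `ε`, such that, for `M` large:
(1) if `1 ≤ s 1, ..., s x ≤ M` is a family whose energy of some order `h` is at most
`(log M) ^ A x ^ (2 h) / M`, then all but `x / (log M) ^ U` of the residues `c = s i` are typical;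
(2) this holds for the values `c = f(n)`, `n ≤ x`, of any fixed nonconstant polynomial with positive
leading coefficient, when `1 ≤ f(n) ≤ M` for `n ≤ x` and `M ≤ B x ^ deg f`. -/
theorem result : ∀ ε : ℝ, 0 < ε → ε ≤ 9 / 10 → ∃ C δ : ℝ, 0 < C ∧ 0 < δ ∧
    (∀ h A U κ : ℕ, ∃ M₀ : ℕ, ∀ M : ℕ, M₀ ≤ M →
      ∀ (x : ℕ) (s : ℕ → ℕ), (∀ i ∈ Icc 1 x, 1 ≤ s i ∧ s i ≤ M) →
      (energy h x s : ℝ) * M ≤ Real.log M ^ A * (x : ℝ) ^ (2 * h) →
      (((Icc 1 x).filter (fun i : ℕ => ¬ Typical ε C δ κ M (s i))).card : ℝ) ≤ x / Real.log M ^ U) ∧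
    (∀ f : ℤ[X], 1 ≤ f.natDegree → 0 < f.leadingCoeff → ∀ B U κ : ℕ, ∃ M₀ : ℕ, ∀ M : ℕ, M₀ ≤ M →
      ∀ x : ℕ, M ≤ B * x ^ f.natDegree →
      (∀ n ∈ Icc 1 x, 1 ≤ f.eval (n : ℤ) ∧ f.eval (n : ℤ) ≤ M) →
      (((Icc 1 x).filter (fun n : ℕ => ¬ Typical ε C δ κ M (f.eval (n : ℤ)).toNat)).card : ℝ) ≤
        x / Real.log M ^ U) := by
  intro ε hε hε1
  obtain ⟨C, δ, hC, hδ, hfam⟩ := Pool.Agent.W109.LT.families ε hε hε1
  refine ⟨C, δ, hC, hδ, fun h A U κ => ?_, fun f hd hl B U κ => ?_⟩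
  · obtain ⟨M0, h0⟩ := hfam h A U κ
    refine ⟨max M0 1, fun M hM x s hs hen => ?_⟩
    refine le_trans ?_ (h0 M (le_trans (le_max_left _ _) hM) x s hs hen)
    have hsub : (Icc 1 x).filter (fun i : ℕ => ¬ Typical ε C δ κ M (s i)) ⊆
        (Icc 1 x).filter (fun i : ℕ => ¬ Pool.Agent.W109.LT.Typical ε C δ κ M (s i)) := by
      intro i hi
      rw [mem_filter] at hi ⊢
      exact ⟨hi.1, fun hg => hi.2 (typ_conv ε C δ κ M (s i) (by linarith)
        (le_trans (le_max_right _ _) hM) hg)⟩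
    exact_mod_cast card_le_card hsub
  · obtain ⟨M0, h0⟩ := Pool.Agent.W109.LT.polys ε C δ hfam f hd hl B U κ
    refine ⟨max M0 1, fun M hM x hx hf => ?_⟩
    refine le_trans ?_ (h0 M (le_trans (le_max_left _ _) hM) x hx hf)
    have hsub : (Icc 1 x).filter (fun n : ℕ => ¬ Typical ε C δ κ M (f.eval (n : ℤ)).toNat) ⊆
        (Icc 1 x).filter (fun n : ℕ => ¬ Pool.Agent.W109.LT.Typical ε C δ κ M (f.eval (n : ℤ)).toNat) := by
      intro i hi
      rw [mem_filter] at hi ⊢
      exact ⟨hi.1, fun hg => hi.2 (typ_conv ε C δ κ M _ (by linarith)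
        (le_trans (le_max_right _ _) hM) hg)⟩
    exact_mod_cast card_le_card hsub

end Pool.Agent.Results.MP_5b0a7e_nt.ThinResiduesLambda
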